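import Pool.Agent.H484.AL.Stm

/-!
# AL-SQ: few cylinders have a large denominator
-/

namespace Pool.Agent.H264.AL.SQ

open Pool.Agent.H484.AL
open Finset
open scoped Classical

theorem len_nonneg (w : List ℕ) : 0 ≤ len w := by
  unfold len
  positivity

/-- one term of the sum -/
theorem term_le {c s : ℝ} (hc : 1 ≤ c) (hs0 : 0 ≤ s) (hs1 : s ≤ 1) :
    (1 + s) / ((c + s) * (c + 1 + s)) * Real.sqrt (c + 1) ≤
      6 * (1 / Real.sqrt c - 1 / Real.sqrt (c + 1)) := by
  have hc0 : 0 < c := by linarith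
  have h1 : (1 + s) / ((c + s) * (c + 1 + s)) ≤ 2 / (c * (c + 1)) := by
    rw [div_le_div_iff₀ (by positivity) (by positivity)]
    nlinarith [mul_nonneg hs0 hc0.le, mul_nonneg hs0 hs0,
      mul_nonneg (mul_nonneg hc0.le hc0.le) (sub_nonneg.2 hs1),
      mul_nonneg hc0.le (sub_nonneg.2 hs1)]
  obtain ⟨a, ha⟩ : ∃ a, a = Real.sqrt c := ⟨_, rfl⟩
  obtain ⟨b, hb⟩ : ∃ b, b = Real.sqrt (c + 1) := ⟨_, rfl⟩
  have ha0 : 0 < a := by rw [ha]; exact Real.sqrt_pos.2 hc0
  have hb0 : 0 < b := by rw [hb]; exact Real.sqrt_pos.2 (by linarith)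
  have ha2 : a * a = c := by rw [ha]; exact Real.mul_self_sqrt hc0.le
  have hb2 : b * b = c + 1 := by rw [hb]; exact Real.mul_self_sqrt (by linarith)
  have hba : b ≤ 2 * a := by
    by_contra hcon
    push Not at hcon
    nlinarith
  have hbb : 1 * (2 * a * (a + b)) ≤ 3 * (2 * a * a) := by nlinarith
  calc (1 + s) / ((c + s) * (c + 1 + s)) * Real.sqrt (c + 1)
      ≤ 2 / (c * (c + 1)) * b := by
        rw [hb]
        exact mul_le_mul_of_nonneg_right h1 (Real.sqrt_nonneg _)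
    _ = 2 / (a * a * b) := by
        rw [← hb2, ← ha2]
        field_simp
    _ ≤ 6 * (1 / (a * b * (a + b))) := by
        rw [mul_one_div, div_le_div_iff₀ (by positivity) (by positivity)]
        have h2 : 0 < a * b := by positivity
        nlinarith [mul_le_mul_of_nonneg_left hbb h2.le]
    _ = 6 * (1 / a - 1 / b) := by
        have h3 : (b - a) * (a + b) = 1 := by nlinarith
        have h4 : 1 / a - 1 / b = (b - a) / (a * b) := by
          field_simp
        rw [h4, ← h3]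
        field_simp
    _ = 6 * (1 / Real.sqrt c - 1 / Real.sqrt (c + 1)) := by rw [ha, hb]

theorem tele : ∀ D : ℕ, ∑ c ∈ Finset.Icc 1 D,
    6 * (1 / Real.sqrt (c : ℝ) - 1 / Real.sqrt ((c : ℝ) + 1)) =
      6 * (1 - 1 / Real.sqrt ((D : ℝ) + 1))
  | 0 => by simp
  | D + 1 => by
      rw [Finset.sum_Icc_succ_top (by omega), tele D]
      push_cast
      ring

theorem qq_le_prod : ∀ w : List ℕ, (∀ c ∈ w, 1 ≤ c) →
    Real.sqrt ((qq w).1 : ℝ) ≤ (w.map (fun c : ℕ => Real.sqrt ((c : ℝ) + 1))).prod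
  | [], _ => by simp [qq]
  | c :: w, h => by
      have hw : ∀ x ∈ w, 1 ≤ x := fun x hx => h x (List.mem_cons_of_mem _ hx)
      have h1 := qq_le_prod w hw
      have h2 := qq_le w hw
      rw [List.map_cons, List.prod_cons]
      have h3 : (((qq (c :: w)).1 : ℕ) : ℝ) ≤ ((c : ℝ) + 1) * ((qq w).1 : ℝ) := by
        have h4 : (qq (c :: w)).1 ≤ (c + 1) * (qq w).1 := by
          simp only [qq]
          nlinarith
        exact_mod_cast h4
      calc Real.sqrt (((qq (c :: w)).1 : ℕ) : ℝ) ≤ Real.sqrt (((c : ℝ) + 1) * ((qq w).1 : ℝ)) :=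
            Real.sqrt_le_sqrt h3
        _ = Real.sqrt ((c : ℝ) + 1) * Real.sqrt ((qq w).1 : ℝ) :=
            Real.sqrt_mul (by positivity) _
        _ ≤ _ := mul_le_mul_of_nonneg_left h1 (Real.sqrt_nonneg _)

end Pool.Agent.H264.AL.SQ

open Pool.Agent.H264.AL.SQ in
theorem Pool.Agent.H484.AL.t_SQ (hTREE : Pool.Agent.H484.AL.S_TREE) :
    Pool.Agent.H484.AL.S_SQ := by
  intro D n
  have h1 := (hTREE D n (fun c : ℕ => Real.sqrt ((c : ℝ) + 1)) 6
    (fun c => Real.sqrt_nonneg _) (by norm_num)).1 ?_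
  · refine le_trans (Finset.sum_le_sum fun w hw => ?_) h1
    refine mul_le_mul_of_nonneg_left (qq_le_prod w ?_) (len_nonneg w)
    intro c hc
    exact (((Pool.Agent.H484.AL.mem_words D n w).1 hw).2 c hc).1
  · intro s hs0 hs1
    calc ∑ c ∈ Finset.Icc 1 D, (1 + s) / (((c : ℝ) + s) * ((c : ℝ) + 1 + s)) *
          Real.sqrt ((c : ℝ) + 1)
        ≤ ∑ c ∈ Finset.Icc 1 D, 6 * (1 / Real.sqrt (c : ℝ) - 1 / Real.sqrt ((c : ℝ) + 1)) := by
          refine Finset.sum_le_sum fun c hc => ?_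
          have hc1 : (1 : ℝ) ≤ (c : ℝ) := by
            exact_mod_cast (Finset.mem_Icc.1 hc).1
          exact term_le hc1 hs0 hs1
      _ = 6 * (1 - 1 / Real.sqrt ((D : ℝ) + 1)) := tele D
      _ ≤ 6 := by
          have : 0 ≤ 1 / Real.sqrt ((D : ℝ) + 1) := by positivity
          linarith
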